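import Pool.Agent.H41.Delta.Space

/-!
# MP_17359d_gt: perfect images of submetalindelöf spaces

A finite-to-one perfect map from a `δθ`-refinable `T₁` space onto a `T₁` space that is not
`δθ`-refinable.
-/

namespace Pool.Agent.Results.MP_17359d_gt.PerfectImage

/-- `δθ`-refinability (submetalindelöfness): every open cover `𝒰` has a sequence `𝒱 n` of open
covers refining it such that each point `x` lies in at most countably many members of `𝒱 n` for
some `n`. -/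
def DeltaThetaRefinable (X : Type) [TopologicalSpace X] : Prop :=
  ∀ 𝒰 : Set (Set X), (∀ u ∈ 𝒰, IsOpen u) → ⋃₀ 𝒰 = Set.univ →
    ∃ 𝒱 : ℕ → Set (Set X),
      (∀ n, (∀ v ∈ 𝒱 n, IsOpen v) ∧ ⋃₀ 𝒱 n = Set.univ ∧ ∀ v ∈ 𝒱 n, ∃ u ∈ 𝒰, v ⊆ u) ∧
      ∀ x, ∃ n, {v | v ∈ 𝒱 n ∧ x ∈ v}.Countable

/-- There are `T₁` spaces `X`, `Y` and a finite-to-one perfect map `f` of `X` onto `Y` such that
`X` is `δθ`-refinable and `Y` is not. -/
theorem result : ∃ (X Y : Type) (_ : TopologicalSpace X) (_ : TopologicalSpace Y) (f : X → Y),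
    T1Space X ∧ T1Space Y ∧ Continuous f ∧ Function.Surjective f ∧ IsClosedMap f ∧
      (∀ y, (f ⁻¹' {y}).Finite) ∧ (∀ y, IsCompact (f ⁻¹' {y})) ∧
      DeltaThetaRefinable X ∧ ¬ DeltaThetaRefinable Y :=
  ⟨H41.Delta.XX, H41.Delta.YY, H41.Delta.topX, H41.Delta.topY, H41.Delta.ff,
    H41.Delta.t1X, H41.Delta.t1Y, H41.Delta.continuous_ff, H41.Delta.surjective_ff,
    H41.Delta.isClosedMap_ff, H41.Delta.finite_fibre,
    fun y => (H41.Delta.finite_fibre y).isCompact, H41.Delta.deltaTheta_X,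
    H41.Delta.not_deltaTheta_Y⟩

end Pool.Agent.Results.MP_17359d_gt.PerfectImage
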